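import Pool.Agent.N655.SM.Core
import Pool.Agent.N848.SM.Stm

/-!
# Project SM: `S_ALL`
-/

set_option autoImplicit false

namespace Pool.Agent.N655.SM

theorem t_ALL : Pool.Agent.N848.SM.S_ALL := fun hc T ζ hT h => main hc T ζ hT h

end Pool.Agent.N655.SM
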