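import Pool.Agent.Y692.QS.Ei

/-!
# Project SM: decomposition of the cube-free elements of `ℤ[ω]`
-/

set_option autoImplicit false
set_option linter.unusedVariables false

namespace Pool.Agent.N655.SM

open Filter Topology
open Pool.Agent.Y692.QS

/-- `λ = 1 + 2 ω` -/
def lm : Ei := ⟨1, 2⟩

/-- cube-free -/
def CF (D : Ei) : Prop := ∀ x : Ei, x ^ 3 ∣ D → IsUnit x

/-- cube-free and `1` modulo `3` -/
def CP (D : Ei) : Prop := (3 : Ei) ∣ D - 1 ∧ ∀ x : Ei, x ^ 3 ∣ D → IsUnit x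

theorem lm_ne : lm ≠ 0 := by decide

theorem lm_dvd {α : Ei} : lm ∣ α ↔ (3 : ℤ) ∣ α.re + α.im := by
  constructor
  · rintro ⟨β, rfl⟩
    rw [mul_re, mul_im]
    have e1 : lm.re = 1 := rfl
    have e2 : lm.im = 2 := rfl
    rw [e1, e2]
    exact ⟨β.re - β.im, by ring⟩
  · rintro ⟨t, ht⟩
    refine ⟨⟨2 * t - α.re, t - α.re⟩, ?_⟩
    ext
    · rw [mul_re]
      have e1 : lm.re = 1 := rfl
      have e2 : lm.im = 2 := rfl
      rw [e1, e2]
      show α.re = 1 * (2 * t - α.re) - 2 * (t - α.re)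
      ring
    · rw [mul_im]
      have e1 : lm.re = 1 := rfl
      have e2 : lm.im = 2 := rfl
      rw [e1, e2]
      show α.im = 1 * (t - α.re) + 2 * (2 * t - α.re) - 2 * (t - α.re)
      linarith

theorem lm_mul {α β : Ei} (h : lm ∣ α * β) : lm ∣ α ∨ lm ∣ β := by
  rw [lm_dvd, mul_re, mul_im] at h
  rw [lm_dvd, lm_dvd]
  have h1 : (3 : ℤ) ∣ (α.re + α.im) * (β.re + β.im) := by
    have e : (α.re + α.im) * (β.re + β.im) = (α.re * β.re - α.im * β.im +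
      (α.re * β.im + α.im * β.re - α.im * β.im)) + 3 * (α.im * β.im) := by ring
    rw [e]
    exact dvd_add h (dvd_mul_right _ _)
  exact Int.prime_three.dvd_or_dvd h1

theorem lm_pow {α : Ei} {n : ℕ} (h : lm ∣ α ^ n) : lm ∣ α := by
  induction n with
  | zero =>
    rw [pow_zero, lm_dvd] at h
    exact absurd h (by decide)
  | succ n ih =>
    rw [pow_succ] at h
    rcases lm_mul h with h | h
    · exact ih h
    · exact h

theorem lm_nr {α : Ei} : lm ∣ α ↔ (3 : ℤ) ∣ nr α := by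
  rw [lm_dvd]
  have h1 : ((nr α : ℤ) : ZMod 3) = (((α.re + α.im : ℤ)) : ZMod 3) ^ 2 := by
    rw [nr_mod]
    push_cast
    rfl
  have h2 := ZMod.intCast_zmod_eq_zero_iff_dvd (α.re + α.im) 3
  have h3 := ZMod.intCast_zmod_eq_zero_iff_dvd (nr α) 3
  rw [h1] at h3
  refine h2.symm.trans (Iff.trans ?_ h3)
  generalize (((α.re + α.im : ℤ)) : ZMod 3) = x
  revert x
  decide

theorem one_nd {D : Ei} (h : (3 : Ei) ∣ D - 1) : ¬ lm ∣ D := by
  have h1 : (((3 : ℤ) : Ei)) ∣ D - 1 := by exact_mod_cast h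
  obtain ⟨⟨a, ha⟩, ⟨b, hb⟩⟩ := int_dvd.1 h1
  rw [lm_dvd]
  rintro ⟨c, hc⟩
  have e1 : (D - 1).re = D.re - 1 := rfl
  have e2 : (D - 1).im = D.im := by
    rw [QuadraticAlgebra.im_sub]
    show D.im - 0 = D.im
    ring
  rw [e1] at ha
  rw [e2] at hb
  omega

/-- cancellation of `λ` -/
theorem cancel_lm {a b : Ei} (ha : ¬ lm ∣ a) (h : a ∣ lm * b) : a ∣ b := by
  obtain ⟨y, hy⟩ := h
  have h1 : lm ∣ a * y := ⟨b, hy.symm⟩
  rcases lm_mul h1 with h2 | ⟨z, rfl⟩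
  · exact absurd h2 ha
  · refine ⟨z, mul_left_cancel₀ lm_ne ?_⟩
    rw [hy]
    ring

theorem cancel_pow {a b : Ei} (ha : ¬ lm ∣ a) : ∀ k : ℕ, a ∣ lm ^ k * b → a ∣ b := by
  intro k
  induction k with
  | zero =>
    intro h
    rwa [pow_zero, one_mul] at h
  | succ k ih =>
    intro h
    rw [pow_succ', mul_assoc] at h
    exact ih (cancel_lm ha h)

theorem cf_mul {D u : Ei} (hu : IsUnit u) {k : ℕ} (hk : k ≤ 2) (h3 : (3 : Ei) ∣ D - 1) :
    CF (u * lm ^ k * D) ↔ CF D := by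
  constructor
  · intro h x hx
    exact h x (hx.mul_left _)
  · intro h x hx
    rw [mul_assoc, hu.dvd_mul_left] at hx
    have hx1 : ¬ lm ∣ x := by
      intro hl
      have h1 : lm ^ 3 ∣ lm ^ k * D := (pow_dvd_pow_of_dvd hl 3).trans hx
      have h2 : lm ^ k * lm ∣ lm ^ k * D := by
        rw [← pow_succ]
        exact (pow_dvd_pow lm (by omega)).trans h1
      exact one_nd h3 ((mul_dvd_mul_iff_left (pow_ne_zero k lm_ne)).1 h2)
    exact h x (cancel_pow (fun hl => hx1 (lm_pow hl)) k hx)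

/-- indices: sign, power of `ω`, power of `λ` -/
abbrev Ix : Type := Bool × ZMod 3 × Fin 3

/-- sign times a power of `ω` -/
def un (b : Bool) (i : ZMod 3) : Ei := (if b then -1 else 1) * w ^ i.val

theorem un_unit (b : Bool) (i : ZMod 3) : IsUnit (un b i) := by
  rw [isUnit_iff]
  revert b i
  decide

theorem un_inj {b b' : Bool} {i i' : ZMod 3} (h : (3 : ℤ) ∣ (un b i - un b' i').re ∧
    (3 : ℤ) ∣ (un b i - un b' i').im) : b = b' ∧ i = i' := by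
  revert b b' i i'
  decide

theorem un_ep {α : Ei} (h : ¬ (3 : ℤ) ∣ nr α) : ∃ b i, ep α = un b i := by
  have h1 : ((nr α : ℤ) : ZMod 3) ≠ 0 := by
    intro h'
    exact h ((ZMod.intCast_zmod_eq_zero_iff_dvd _ 3).1 h')
  rw [nr_mod] at h1
  unfold ep
  generalize ((α.re : ℤ) : ZMod 3) = x at *
  generalize ((α.im : ℤ) : ZMod 3) = y at *
  revert x y
  decide

/-- the element with the given index -/
def el (c : Ix) (D : Ei) : Ei := un c.1 c.2.1 * lm ^ (c.2.2 : ℕ) * D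

theorem nr_pow (α : Ei) (n : ℕ) : nr (α ^ n) = nr α ^ n := by
  induction n with
  | zero => rw [pow_zero, pow_zero, nr_one]
  | succ n ih => rw [pow_succ, pow_succ, nr_mul, ih]

theorem nr_el (c : Ix) (D : Ei) : nr (el c D) = 3 ^ (c.2.2 : ℕ) * nr D := by
  unfold el
  rw [nr_mul, nr_mul, isUnit_iff.1 (un_unit _ _), one_mul, nr_pow]
  rfl

theorem el_inj {c c' : Ix} {D D' : Ei} (h3 : (3 : Ei) ∣ D - 1) (h3' : (3 : Ei) ∣ D' - 1)
    (h : el c D = el c' D') : c = c' ∧ D = D' := by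
  obtain ⟨b, i, k⟩ := c
  obtain ⟨b', i', k'⟩ := c'
  have key : ∀ (b b' : Bool) (i i' : ZMod 3) (k k' : ℕ) (D D' : Ei), (3 : Ei) ∣ D - 1 →
      un b i * lm ^ k * D = un b' i' * lm ^ k' * D' → k' ≤ k := by
    intro b b' i i' k k' D D' h3 h
    by_contra hcon
    push Not at hcon
    have h1 : lm ^ k * lm ∣ lm ^ k * D := by
      rw [← pow_succ, ← (un_unit b i).dvd_mul_left, ← mul_assoc, h, mul_assoc,
        (un_unit b' i').dvd_mul_left]
      exact (pow_dvd_pow lm (by omega)).mul_right _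
    exact one_nd h3 ((mul_dvd_mul_iff_left (pow_ne_zero k lm_ne)).1 h1)
  have hk : (k : ℕ) = k' := le_antisymm (key b' b i' i k' k D' D h3' h.symm)
    (key b b' i i' k k' D D' h3 h)
  have hk' : k = k' := Fin.ext hk
  subst hk'
  have h4 : un b i * D = un b' i' * D' := by
    apply mul_left_cancel₀ (pow_ne_zero (k : ℕ) lm_ne)
    have h5 : un b i * lm ^ (k : ℕ) * D = un b' i' * lm ^ (k : ℕ) * D' := h
    calc lm ^ (k : ℕ) * (un b i * D) = un b i * lm ^ (k : ℕ) * D := by ring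
      _ = un b' i' * lm ^ (k : ℕ) * D' := h5
      _ = lm ^ (k : ℕ) * (un b' i' * D') := by ring
  have h5 : (3 : Ei) ∣ un b i - un b' i' := by
    have e : un b i - un b' i' = un b' i' * (D' - 1) - un b i * (D - 1) := by
      linear_combination h4
    rw [e]
    exact dvd_sub (h3'.mul_left _) (h3.mul_left _)
  have h6 : (((3 : ℤ) : Ei)) ∣ un b i - un b' i' := by exact_mod_cast h5
  obtain ⟨rfl, rfl⟩ := un_inj (int_dvd.1 h6)
  exact ⟨rfl, mul_left_cancel₀ (un_unit b i).ne_zero h4⟩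

theorem ex_unit {α : Ei} (h : ¬ lm ∣ α) : ∃ b i D, (3 : Ei) ∣ D - 1 ∧ α = un b i * D := by
  rw [lm_nr] at h
  obtain ⟨b, i, hb⟩ := un_ep h
  refine ⟨b, i, ns α, ns_one h, ?_⟩
  unfold ns
  rw [← hb, ← mul_assoc, mul_comm (ep α), (ep_cases α h).2, one_mul]

theorem ex_el {D : Ei} (h : CF D) : ∃ (c : Ix) (D' : Ei), (3 : Ei) ∣ D' - 1 ∧ D = el c D' := by
  have key : ∀ (k : Fin 3) (E : Ei), ¬ lm ∣ E → D = lm ^ (k : ℕ) * E →
      ∃ (c : Ix) (D' : Ei), (3 : Ei) ∣ D' - 1 ∧ D = el c D' := by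
    intro k E hE hD
    obtain ⟨b, i, D', h3, rfl⟩ := ex_unit hE
    refine ⟨(b, i, k), D', h3, ?_⟩
    rw [hD]
    unfold el
    simp only
    ring
  by_cases h1 : lm ∣ D
  · obtain ⟨D1, rfl⟩ := h1
    by_cases h2 : lm ∣ D1
    · obtain ⟨D2, rfl⟩ := h2
      by_cases h3 : lm ∣ D2
      · obtain ⟨D3, rfl⟩ := h3
        have h4 := h lm ⟨D3, by ring⟩
        rw [isUnit_iff] at h4
        exact absurd h4 (by decide)
      · exact key 2 D2 h3 (by
          show lm * (lm * D2) = lm ^ 2 * D2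
          ring)
    · exact key 1 D1 h2 (by
        show lm * D1 = lm ^ 1 * D1
        ring)
  · exact key 0 D h1 (by
      show D = lm ^ 0 * D
      ring)

theorem fin_nr (X : ℕ) : {D : Ei | nr D ≤ X}.Finite := by
  have h1 : (((Set.Icc (-(2 * X : ℤ)) (2 * X)) ×ˢ (Set.Icc (-(2 * X : ℤ)) (2 * X))) :
      Set (ℤ × ℤ)).Finite := (Set.finite_Icc _ _).prod (Set.finite_Icc _ _)
  refine (h1.image fun p => (⟨p.1, p.2⟩ : Ei)).subset ?_
  intro D hD
  have hD' : nr D ≤ X := hD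
  unfold nr at hD'
  refine ⟨(D.re, D.im), ⟨⟨?_, ?_⟩, ⟨?_, ?_⟩⟩, rfl⟩
  · show -(2 * X : ℤ) ≤ D.re
    by_contra hc
    push Not at hc
    nlinarith [sq_nonneg (2 * D.im - D.re), sq_nonneg D.re]
  · show D.re ≤ 2 * X
    by_contra hc
    push Not at hc
    nlinarith [sq_nonneg (2 * D.im - D.re), sq_nonneg D.re]
  · show -(2 * X : ℤ) ≤ D.im
    by_contra hc
    push Not at hc
    nlinarith [sq_nonneg (2 * D.re - D.im), sq_nonneg D.im]
  · show D.im ≤ 2 * X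
    by_contra hc
    push Not at hc
    nlinarith [sq_nonneg (2 * D.re - D.im), sq_nonneg D.im]

/-- the number of the cube-free elements with the property `T` -/
theorem card_all (T : Ei → Prop) (X : ℕ) : {D : Ei | nr D ≤ X ∧ CF D ∧ T D}.ncard =
    ∑ c : Ix, {D : Ei | nr D ≤ (X / 3 ^ (c.2.2 : ℕ) : ℕ) ∧ CP D ∧ T (el c D)}.ncard := by
  classical
  have hf : ∀ c : Ix, {D : Ei | nr D ≤ (X / 3 ^ (c.2.2 : ℕ) : ℕ) ∧ CP D ∧ T (el c D)}.Finite :=
    fun c => (fin_nr _).subset fun D hD => hD.1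
  have hN : {D : Ei | nr D ≤ X ∧ CF D ∧ T D}.Finite := (fin_nr _).subset fun D hD => hD.1
  have hle : ∀ (c : Ix) (D : Ei), nr (el c D) ≤ X ↔ nr D ≤ (X / 3 ^ (c.2.2 : ℕ) : ℕ) := by
    intro c D
    rw [nr_el]
    push_cast
    rw [Int.le_ediv_iff_mul_le (by positivity), mul_comm]
  have himg : hN.toFinset = ((Finset.univ : Finset Ix).sigma fun c => (hf c).toFinset).image
      (fun p => el p.1 p.2) := by
    ext D
    rw [Set.Finite.mem_toFinset, Finset.mem_image]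
    constructor
    · rintro ⟨h1, h2, h3⟩
      obtain ⟨c, D', h4, rfl⟩ := ex_el h2
      refine ⟨⟨c, D'⟩, ?_, rfl⟩
      rw [Finset.mem_sigma, Set.Finite.mem_toFinset]
      refine ⟨Finset.mem_univ _, (hle c D').1 h1, ⟨h4, ?_⟩, h3⟩
      exact (cf_mul (un_unit _ _) (by have := c.2.2.2; omega) h4).1 h2
    · rintro ⟨⟨c, D'⟩, h, rfl⟩
      rw [Finset.mem_sigma, Set.Finite.mem_toFinset] at h
      obtain ⟨-, h1, ⟨h2, h3⟩, h4⟩ := h
      exact ⟨(hle c D').2 h1, (cf_mul (un_unit _ _) (by have := c.2.2.2; omega) h2).2 h3, h4⟩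
  rw [Set.ncard_eq_toFinset_card _ hN, himg, Finset.card_image_of_injOn, Finset.card_sigma]
  · refine Finset.sum_congr rfl fun c _ => ?_
    rw [Set.ncard_eq_toFinset_card _ (hf c)]
  · rintro ⟨c, D⟩ h ⟨c', D'⟩ h' he
    rw [Finset.mem_coe, Finset.mem_sigma, Set.Finite.mem_toFinset] at h h'
    obtain ⟨rfl, rfl⟩ := el_inj h.2.2.1.1 h'.2.2.1.1 he
    rfl

theorem un_true (i : ZMod 3) : un true i = -(un false i) := by
  unfold un
  simp

/-- the same for a property that does not depend on the sign -/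
theorem card_all' (T : Ei → Prop) (hT : ∀ D, T (-D) ↔ T D) (X : ℕ) :
    {D : Ei | nr D ≤ X ∧ CF D ∧ T D}.ncard = 2 * ∑ i : ZMod 3, ∑ k : Fin 3,
      {D : Ei | nr D ≤ (X / 3 ^ (k : ℕ) : ℕ) ∧ CP D ∧
        T (w ^ i.val * ⟨1, 2⟩ ^ (k : ℕ) * D)}.ncard := by
  rw [card_all, Fintype.sum_prod_type, Fintype.sum_bool, two_mul]
  have e1 : ∀ (i : ZMod 3) (k : Fin 3) (D : Ei), el (false, i, k) D =
      w ^ i.val * ⟨1, 2⟩ ^ (k : ℕ) * D := by
    intro i k D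
    unfold el un
    simp only [Bool.false_eq_true, if_false, one_mul]
    rfl
  have e2 : ∀ (i : ZMod 3) (k : Fin 3) (D : Ei), el (true, i, k) D =
      -(w ^ i.val * ⟨1, 2⟩ ^ (k : ℕ) * D) := by
    intro i k D
    rw [← e1]
    unfold el
    simp only
    rw [un_true]
    ring
  congr 1
  · rw [Fintype.sum_prod_type]
    refine Finset.sum_congr rfl fun i _ => Finset.sum_congr rfl fun k _ => ?_
    simp only [e2, hT]
  · rw [Fintype.sum_prod_type]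
    refine Finset.sum_congr rfl fun i _ => Finset.sum_congr rfl fun k _ => ?_
    simp only [e1]

/-- the limit of `f(⌊X / 3 ^ k⌋) / X` -/
theorem lim_div {f : ℕ → ℝ} {L : ℝ} (h : Tendsto (fun X : ℕ => f X / X) atTop (𝓝 L)) (k : ℕ) :
    Tendsto (fun X : ℕ => f (X / 3 ^ k) / X) atTop (𝓝 (L / 3 ^ k)) := by
  have h3 : 0 < 3 ^ k := by positivity
  have h1 : Tendsto (fun X : ℕ => X / 3 ^ k) atTop atTop := Nat.tendsto_div_const_atTop h3.ne'
  have h2 : Tendsto (fun X : ℕ => ((X / 3 ^ k : ℕ) : ℝ) / X) atTop (𝓝 (1 / 3 ^ k)) := by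
    have h4 := (tendsto_nat_floor_mul_div_atTop (R := ℝ) (a := 1 / 3 ^ k) (by positivity)).comp
      tendsto_natCast_atTop_atTop
    refine h4.congr fun X => ?_
    show ((⌊1 / 3 ^ k * (X : ℝ)⌋₊ : ℕ) : ℝ) / X = _
    have e : (1 : ℝ) / 3 ^ k * X = (X : ℝ) / ((3 ^ k : ℕ) : ℝ) := by
      push_cast
      ring
    rw [e, Nat.floor_div_eq_div]
  have h5 := (h.comp h1).mul h2
  have e6 : L * (1 / 3 ^ k) = L / 3 ^ k := by ring
  rw [e6] at h5
  refine h5.congr' ?_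
  filter_upwards [eventually_ge_atTop (3 ^ k)] with X hX
  have h7 : 0 < X / 3 ^ k := Nat.div_pos hX h3
  have h8 : ((X / 3 ^ k : ℕ) : ℝ) ≠ 0 := by
    exact_mod_cast h7.ne'
  show f (X / 3 ^ k) / ((X / 3 ^ k : ℕ) : ℝ) * (((X / 3 ^ k : ℕ) : ℝ) / X) = f (X / 3 ^ k) / X
  field_simp

theorem main (hc : ∃ c : ℝ, 0 < c ∧ Tendsto
    (fun X : ℕ => ({D : Ei | nr D ≤ X ∧ CP D}.ncard : ℝ) / X) atTop (𝓝 c))
    (T : Ei → Prop) (ζ : ZMod 3 → Fin 3 → ℝ) (hT : ∀ D, T (-D) ↔ T D)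
    (h : ∀ (i : ZMod 3) (k : Fin 3), Tendsto (fun X : ℕ =>
      ({D : Ei | nr D ≤ X ∧ CP D ∧ T (w ^ i.val * ⟨1, 2⟩ ^ (k : ℕ) * D)}.ncard : ℝ) /
        ({D : Ei | nr D ≤ X ∧ CP D}.ncard : ℝ)) atTop (𝓝 (ζ i k))) :
    Tendsto (fun X : ℕ => ({D : Ei | nr D ≤ X ∧ CF D ∧ T D}.ncard : ℝ) /
      ({D : Ei | nr D ≤ X ∧ CF D}.ncard : ℝ)) atTop
      (𝓝 ((∑ i, ∑ k : Fin 3, ζ i k / 3 ^ (k : ℕ)) / (13 / 3))) := by
  obtain ⟨c, hc0, hc⟩ := hc
  have hP : ∀ᶠ X : ℕ in atTop, ({D : Ei | nr D ≤ X ∧ CP D}.ncard : ℝ) ≠ 0 := by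
    have h1 := hc.eventually (lt_mem_nhds hc0)
    filter_upwards [h1] with X hX
    intro h0
    rw [h0, zero_div] at hX
    exact lt_irrefl _ hX
  have h1 : ∀ (i : ZMod 3) (k : Fin 3), Tendsto (fun X : ℕ =>
      ({D : Ei | nr D ≤ X ∧ CP D ∧ T (w ^ i.val * ⟨1, 2⟩ ^ (k : ℕ) * D)}.ncard : ℝ) / X)
      atTop (𝓝 (ζ i k * c)) := by
    intro i k
    refine ((h i k).mul hc).congr' ?_
    filter_upwards [hP] with X hX
    field_simp
  have h2 : Tendsto (fun X : ℕ => ({D : Ei | nr D ≤ X ∧ CF D ∧ T D}.ncard : ℝ) / X) atTop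
      (𝓝 (2 * ∑ i : ZMod 3, ∑ k : Fin 3, ζ i k * c / 3 ^ (k : ℕ))) := by
    have h3 : Tendsto (fun X : ℕ => 2 * ∑ i : ZMod 3, ∑ k : Fin 3,
        ({D : Ei | nr D ≤ (X / 3 ^ (k : ℕ) : ℕ) ∧ CP D ∧
          T (w ^ i.val * ⟨1, 2⟩ ^ (k : ℕ) * D)}.ncard : ℝ) / X) atTop
        (𝓝 (2 * ∑ i : ZMod 3, ∑ k : Fin 3, ζ i k * c / 3 ^ (k : ℕ))) := by
      refine Tendsto.const_mul 2 (tendsto_finsetSum _ fun i _ => tendsto_finsetSum _ fun k _ => ?_)
      exact lim_div (h1 i k) k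
    refine h3.congr fun X => ?_
    rw [card_all' T hT]
    push_cast
    simp only [Finset.sum_div, mul_div_assoc]
  have h4 : Tendsto (fun X : ℕ => ({D : Ei | nr D ≤ X ∧ CF D}.ncard : ℝ) / X) atTop
      (𝓝 (2 * ∑ i : ZMod 3, ∑ k : Fin 3, c / 3 ^ (k : ℕ))) := by
    have h3 : Tendsto (fun X : ℕ => 2 * ∑ i : ZMod 3, ∑ k : Fin 3,
        ({D : Ei | nr D ≤ (X / 3 ^ (k : ℕ) : ℕ) ∧ CP D}.ncard : ℝ) / X) atTop
        (𝓝 (2 * ∑ i : ZMod 3, ∑ k : Fin 3, c / 3 ^ (k : ℕ))) := by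
      refine Tendsto.const_mul 2 (tendsto_finsetSum _ fun i _ => tendsto_finsetSum _ fun k _ => ?_)
      exact lim_div hc k
    refine h3.congr fun X => ?_
    have h5 := card_all' (fun _ => True) (fun _ => Iff.rfl) X
    simp only [and_true] at h5
    rw [h5]
    push_cast
    simp only [Finset.sum_div, mul_div_assoc]
  have h6 : (2 * ∑ i : ZMod 3, ∑ k : Fin 3, c / 3 ^ (k : ℕ) : ℝ) = 2 * (c * (13 / 3)) := by
    simp only [Finset.sum_const, Finset.card_univ, ZMod.card, Fin.sum_univ_three]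
    norm_num
    ring
  have h7 : (2 * ∑ i : ZMod 3, ∑ k : Fin 3, ζ i k * c / 3 ^ (k : ℕ) : ℝ) =
      2 * (c * ∑ i : ZMod 3, ∑ k : Fin 3, ζ i k / 3 ^ (k : ℕ)) := by
    congr 1
    rw [Finset.mul_sum]
    refine Finset.sum_congr rfl fun i _ => ?_
    rw [Finset.mul_sum]
    refine Finset.sum_congr rfl fun k _ => ?_
    ring
  rw [h6] at h4
  rw [h7] at h2
  have h8 := h2.div h4 (by positivity)
  have h9 : (2 * (c * ∑ i : ZMod 3, ∑ k : Fin 3, ζ i k / 3 ^ (k : ℕ)) / (2 * (c * (13 / 3))) : ℝ) =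
      (∑ i : ZMod 3, ∑ k : Fin 3, ζ i k / 3 ^ (k : ℕ)) / (13 / 3) := by
    field_simp
  rw [h9] at h8
  refine h8.congr' ?_
  filter_upwards [eventually_ge_atTop 1] with X hX
  have h10 : (X : ℝ) ≠ 0 := by
    have : 0 < X := hX
    exact_mod_cast this.ne'
  exact div_div_div_cancel_right₀ h10 _ _

end Pool.Agent.N655.SM
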